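import Mathlib

/-!
# Monochromatic trees of diameter at most three: basic reduction

Helper file for `MP_f88521_co`.
-/

namespace Pool.Agent.W5h7.DStar

open SimpleGraph Finset

/-- `τ_n(d)`: the trees on the vertex set `Fin n` whose diameter is at most `d`. -/
def tau (n d : ℕ) : Set (SimpleGraph (Fin n)) := {T | T.IsTree ∧ T.diam ≤ d}

/-- The graph formed by the edges of `K_N` which the colouring `c` gives colour `i`. -/
def colourClass {N : ℕ} (c : Sym2 (Fin N) → Fin 2) (i : Fin 2) : SimpleGraph (Fin N) where
  Adj u v := u ≠ v ∧ c s(u, v) = i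
  symm := ⟨fun u v h => ⟨h.1.symm, by rw [Sym2.eq_swap]; exact h.2⟩⟩
  loopless := ⟨fun u h => h.1 rfl⟩

/-- Every colouring of the edges of `K_N` with two colours contains a monochromatic copy of a
member of the family `F`. -/
def Arrows (N : ℕ) {n : ℕ} (F : Set (SimpleGraph (Fin n))) : Prop :=
  ∀ c : Sym2 (Fin N) → Fin 2, ∃ i : Fin 2, ∃ T ∈ F, T.IsContained (colourClass c i)

/-- The two-colour Ramsey number `R(F, 2)` of a family `F` of graphs on `n` vertices. -/
noncomputable def ramsey {n : ℕ} (F : Set (SimpleGraph (Fin n))) : ℕ :=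
  sInf {N | Arrows N F}

/-- In a tree of diameter at most three on at least two vertices some edge dominates. -/
theorem exists_dominating_edge {n : ℕ} (hn : 2 ≤ n) {T : SimpleGraph (Fin n)}
    (hT : T.IsTree) (hd : T.diam ≤ 3) :
    ∃ a b, T.Adj a b ∧ ∀ w, T.Adj a w ∨ T.Adj b w := by
  classical
  have : Nontrivial (Fin n) := Fin.nontrivial_iff_two_le.mpr hn
  -- all distances are at most three
  have hdist : ∀ u v, T.dist u v ≤ 3 := fun u v =>
    (dist_le_diam (connected_iff_ediam_ne_top.mp hT.1)).trans hd
  -- paths are unique, so every path has length at most three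
  have hpath : ∀ u v (p : T.Walk u v), p.IsPath → p.length ≤ 3 := by
    intro u v p hp
    obtain ⟨q, hq, hql⟩ := hT.1.exists_path_of_dist u v
    have h1 := hT.2.subsingleton_path u v
    have h2 : p = q := congrArg Subtype.val (h1.elim ⟨p, hp⟩ ⟨q, hq⟩)
    rw [h2, hql]
    exact hdist u v
  -- pick an edge with the largest closed neighbourhood
  let D : Fin n × Fin n → Finset (Fin n) := fun p => univ.filter fun w => T.Adj p.1 w ∨ T.Adj p.2 w
  let E : Finset (Fin n × Fin n) := univ.filter fun p => T.Adj p.1 p.2
  have hE : E.Nonempty := by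
    obtain ⟨x, y, hxy⟩ := exists_pair_ne (Fin n)
    obtain ⟨p⟩ := hT.1.preconnected x y
    cases p with
    | nil => exact absurd rfl hxy
    | cons h _ => exact ⟨(_, _), by simpa [E] using h⟩
  obtain ⟨⟨a, b⟩, hab, hmax⟩ := exists_max_image E (fun p => (D p).card) hE
  have hab' : T.Adj a b := by simpa [E] using hab
  refine ⟨a, b, hab', ?_⟩
  by_contra hcon
  push Not at hcon
  obtain ⟨w0, hw0a, hw0b⟩ := hcon
  -- a vertex adjacent to the dominated set but outside of it
  have key : ∃ c w, (T.Adj a c ∨ T.Adj b c) ∧ T.Adj c w ∧ ¬ T.Adj a w ∧ ¬ T.Adj b w := by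
    obtain ⟨p⟩ := hT.1.preconnected a w0
    obtain ⟨d, hd, h1, h2⟩ := p.exists_boundary_dart {x | T.Adj a x ∨ T.Adj b x}
      (by simp [hab'.symm]) (by simp [hw0a, hw0b])
    refine ⟨d.fst, d.snd, h1, d.adj, ?_, ?_⟩
    · intro h; exact h2 (Or.inl h)
    · intro h; exact h2 (Or.inr h)
  -- by symmetry treat the case `a ~ c`
  have main : ∀ a b : Fin n, T.Adj a b → (∀ p ∈ E, (D p).card ≤ (D (a, b)).card) →
      ∀ c w, T.Adj a c → T.Adj c w → ¬ T.Adj a w → ¬ T.Adj b w → False := by
    intro a b hab hmax c w hac hcw haw hbw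
    have hcb : c ≠ b := by rintro rfl; exact hbw hcw
    have hle := hmax (c, a) (by simpa [E] using hac.symm)
    have hz : ∃ z, T.Adj b z ∧ ¬ T.Adj a z ∧ ¬ T.Adj c z := by
      by_contra hno
      push Not at hno
      have hsub : insert w (D (a, b)) ⊆ D (c, a) := by
        intro x hx
        rw [mem_insert] at hx
        rcases hx with rfl | hx
        · simp [D, hcw]
        · simp only [D, mem_filter, mem_univ, true_and] at hx ⊢
          rcases hx with hx | hx
          · exact Or.inr hx
          · by_cases h : T.Adj a x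
            · exact Or.inr h
            · exact Or.inl (hno x hx h)
      have := card_le_card hsub
      rw [card_insert_of_notMem (by simp [D, haw, hbw])] at this
      omega
    obtain ⟨z, hbz, haz, hcz⟩ := hz
    -- the path `w c a b z`
    let p : T.Walk w z := Walk.cons hcw.symm (Walk.cons hac.symm (Walk.cons hab
      (Walk.cons hbz Walk.nil)))
    have hp : p.IsPath := by
      have hwz : w ≠ z := by rintro rfl; exact hbw hbz
      have hwa : w ≠ a := by rintro rfl; exact hbw hab.symm
      have hwb : w ≠ b := by rintro rfl; exact haw hab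
      have hza : z ≠ a := by rintro rfl; exact hcz hac.symm
      have hzc : z ≠ c := by rintro rfl; exact haz hac
      simp [p, Walk.isPath_def, hwz, hwa, hwb, hcw.ne', hac.ne', hcb, hab.ne, hbz.ne, hza.symm,
        hzc.symm]
    have := hpath _ _ p hp
    simp [p] at this
  obtain ⟨c, w, hc, hcw, haw, hbw⟩ := key
  rcases hc with hc | hc
  · exact main a b hab' (fun p hp => hmax p hp) c w hc hcw haw hbw
  · refine main b a hab'.symm (fun p hp => ?_) c w hc hcw hbw haw
    have h1 := hmax p hp
    have h2 : D (b, a) = D (a, b) := by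
      ext x; simp [D, or_comm]
    rw [h2]; exact h1

/-- The vertices outside both neighbourhoods. -/
def co {N : ℕ} (H : SimpleGraph (Fin N)) [DecidableRel H.Adj] (u v : Fin N) : Finset (Fin N) :=
  univ.filter fun w => ¬ H.Adj u w ∧ ¬ H.Adj v w

theorem edge_of_contained {N n : ℕ} (hn : 2 ≤ n) {H : SimpleGraph (Fin N)} [DecidableRel H.Adj]
    {T : SimpleGraph (Fin n)} (hT : T ∈ tau n 3) (hTH : T.IsContained H) :
    ∃ u v, H.Adj u v ∧ (co H u v).card + n ≤ N := by
  classical
  obtain ⟨a, b, hab, hdom⟩ := exists_dominating_edge hn hT.1 hT.2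
  obtain ⟨f⟩ := hTH
  refine ⟨f a, f b, f.toHom.map_adj hab, ?_⟩
  have hdisj : Disjoint (co H (f a) (f b)) (univ.image f) := by
    rw [Finset.disjoint_left]
    intro x hx hx2
    simp only [mem_image, mem_univ, true_and] at hx2
    obtain ⟨w, rfl⟩ := hx2
    simp only [co, mem_filter, mem_univ, true_and] at hx
    rcases hdom w with h | h
    · exact hx.1 (f.toHom.map_adj h)
    · exact hx.2 (f.toHom.map_adj h)
  have h1 := card_union_of_disjoint hdisj
  have h2 : (univ.image f).card = n := by
    rw [card_image_of_injective _ (show Function.Injective (⇑f) from f.injective)]; simp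
  have h3 : (co H (f a) (f b) ∪ univ.image f).card ≤ N := by
    simpa using card_le_univ (co H (f a) (f b) ∪ univ.image f)
  omega


section construction

variable {n : ℕ}

/-- The graph on `Fin n` joining each vertex to its parent. -/
def parGraph (par : Fin n → Fin n) : SimpleGraph (Fin n) where
  Adj x y := x ≠ y ∧ (y = par x ∨ x = par y)
  symm := ⟨fun _ _ h => ⟨h.1.symm, h.2.symm⟩⟩
  loopless := ⟨fun _ h => h.1 rfl⟩

theorem parGraph_mem (hn : 2 ≤ n) (par : Fin n → Fin n) (a b : Fin n) (hab : a ≠ b)
    (ha : par a = a)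
    (hb : par b = a) (h : ∀ x, x ≠ a → par x = a ∨ par x = b ∧ x ≠ b) :
    parGraph par ∈ tau n 3 := by
  classical
  have hnt : Nontrivial (Fin n) := Fin.nontrivial_iff_two_le.mpr hn
  set T := parGraph par with hT
  have hadj : ∀ x, par x ≠ x → T.Adj x (par x) := fun x hx => ⟨hx.symm, Or.inl rfl⟩
  have hba : T.Adj b a := by
    have := hadj b (by rw [hb]; exact hab)
    rwa [hb] at this
  have hnear : ∀ x, ∃ e, (e = a ∨ e = b) ∧ (x = e ∨ T.Adj x e) := by
    intro x
    by_cases hxa : x = a
    · exact ⟨a, Or.inl rfl, Or.inl hxa⟩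
    by_cases hxb : x = b
    · exact ⟨b, Or.inr rfl, Or.inl hxb⟩
    rcases h x hxa with h1 | h1
    · refine ⟨a, Or.inl rfl, Or.inr ?_⟩
      have := hadj x (by rw [h1]; exact Ne.symm hxa)
      rwa [h1] at this
    · refine ⟨b, Or.inr rfl, Or.inr ?_⟩
      have := hadj x (by rw [h1.1]; exact Ne.symm hxb)
      rwa [h1.1] at this
  have hed1 : ∀ x e, (x = e ∨ T.Adj x e) → T.edist x e ≤ 1 := by
    intro x e hx
    rcases hx with rfl | hx
    · simp
    · rw [edist_eq_one_iff_adj.mpr hx]
  have hed2 : ∀ e f, (e = a ∨ e = b) → (f = a ∨ f = b) → T.edist e f ≤ 1 := by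
    intro e f he hf
    apply hed1
    rcases he with rfl | rfl <;> rcases hf with rfl | rfl
    · exact Or.inl rfl
    · exact Or.inr hba.symm
    · exact Or.inr hba
    · exact Or.inl rfl
  have hediam : T.ediam ≤ 3 := by
    apply ediam_le_of_edist_le
    intro x y
    obtain ⟨e, he, hxe⟩ := hnear x
    obtain ⟨f, hf, hyf⟩ := hnear y
    calc T.edist x y ≤ T.edist x e + T.edist e y := SimpleGraph.edist_triangle
      _ ≤ T.edist x e + (T.edist e f + T.edist f y) := by
          gcongr; exact SimpleGraph.edist_triangle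
      _ ≤ 1 + (1 + 1) := by
          gcongr
          · exact hed1 _ _ hxe
          · exact hed2 _ _ he hf
          · rw [SimpleGraph.edist_comm]; exact hed1 _ _ hyf
      _ = 3 := by norm_num
  have hne : Nonempty (Fin n) := ⟨a⟩
  have hconn : T.Connected :=
    connected_iff_ediam_ne_top.mpr (ne_top_of_le_ne_top (by simp) hediam)
  refine ⟨?_, ?_⟩
  · rw [isTree_iff_connected_and_card]
    refine ⟨hconn, ?_⟩
    have h1 := hconn.card_vert_le_card_edgeSet_add_one
    have h2 : Nat.card T.edgeSet + 1 ≤ Nat.card (Fin n) := by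
      have hsub : T.edgeSet ⊆ (((univ.erase a).image fun x => s(x, par x) :
          Finset (Sym2 (Fin n))) : Set (Sym2 (Fin n))) := by
        intro e
        refine Sym2.ind (fun x y => ?_) e
        intro hxy
        have hxy' : x ≠ y ∧ (y = par x ∨ x = par y) := hxy
        simp only [coe_image, coe_erase, coe_univ, Set.mem_image, Set.mem_sdiff, Set.mem_univ,
          Set.mem_singleton_iff, true_and]
        -- a vertex whose parent is the other end, different from `a`
        have hclaim : ∀ x y : Fin n, x ≠ y → y = par x → ∃ z, ¬ z = a ∧ s(z, par z) = s(x, y) := by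
          intro x y hne hy
          by_cases hxa : x = a
          · subst hxa; exact absurd (hy.trans ha).symm hne
          · exact ⟨x, hxa, by rw [hy]⟩
        rcases hxy'.2 with h' | h'
        · exact hclaim x y hxy'.1 h'
        · obtain ⟨z, hz, hz2⟩ := hclaim y x hxy'.1.symm h'
          exact ⟨z, hz, by rw [hz2, Sym2.eq_swap]⟩
      have h3 : Nat.card T.edgeSet ≤ ((univ.erase a).image fun x => s(x, par x)).card := by
        have := Set.ncard_le_ncard hsub (Finset.finite_toSet _)
        rw [Set.ncard_coe_finset] at this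
        exact this
      have h4 : ((univ.erase a).image fun x => s(x, par x)).card ≤ n - 1 := by
        refine card_image_le.trans ?_
        rw [card_erase_of_mem (mem_univ a)]; simp
      have h5 : Nat.card (Fin n) = n := by simp
      omega
    omega
  · have := ENat.toNat_le_toNat hediam (by simp)
    simpa [SimpleGraph.diam] using this

/-- Conversely, an edge whose two neighbourhoods cover `n` vertices gives a tree. -/
theorem contained_of_edge {N : ℕ} (hn : 2 ≤ n) (H : SimpleGraph (Fin N)) [DecidableRel H.Adj]
    {u v : Fin N} (huv : H.Adj u v) (hc : (co H u v).card + n ≤ N) :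
    ∃ T ∈ tau n 3, T.IsContained H := by
  classical
  obtain ⟨m, rfl⟩ : ∃ m, n = m + 2 := ⟨n - 2, by omega⟩
  let S : Finset (Fin N) := (univ \ co H u v) \ {u, v}
  have huS : u ∉ co H u v := by simp [co, huv.symm]
  have hvS : v ∉ co H u v := by simp [co, huv]
  have hS : m ≤ S.card := by
    have h1 : ({u, v} : Finset (Fin N)) ⊆ univ \ co H u v := by
      intro x hx
      simp only [mem_insert, mem_singleton] at hx
      rcases hx with rfl | rfl
      · simpa using huS
      · simpa using hvS
    have h2 : S.card = (univ \ co H u v).card - ({u, v} : Finset (Fin N)).card :=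
      card_sdiff_of_subset h1
    have h3 : (univ \ co H u v).card = N - (co H u v).card := by
      rw [card_sdiff_of_subset (subset_univ _)]; simp
    have h4 : ({u, v} : Finset (Fin N)).card = 2 := card_pair huv.ne
    omega
  obtain ⟨S', hS', hcard⟩ := exists_subset_card_eq hS
  let g : Fin m → Fin N := fun i => ((S'.equivFinOfCardEq hcard).symm i : Fin N)
  have hginj : Function.Injective g := fun i j h =>
    (S'.equivFinOfCardEq hcard).symm.injective (Subtype.ext h)
  have hgS : ∀ i, g i ∈ S := fun i => hS' ((S'.equivFinOfCardEq hcard).symm i).2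
  have hgu : ∀ i, g i ≠ u := fun i h => by have := hgS i; simp [S, h] at this
  have hgv : ∀ i, g i ≠ v := fun i h => by have := hgS i; simp [S, h] at this
  have hgadj : ∀ i, H.Adj u (g i) ∨ H.Adj v (g i) := fun i => by
    have := hgS i
    simp only [S, mem_sdiff, mem_univ, true_and, co, mem_filter] at this
    by_contra hcon
    push Not at hcon
    exact this.1 hcon
  let f : Fin (m + 2) → Fin N := Fin.cons u (Fin.cons v g)
  have hfinj : Function.Injective f := by
    rw [Fin.cons_injective_iff, Fin.cons_injective_iff]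
    refine ⟨?_, ?_, hginj⟩
    · rintro ⟨i, hi⟩
      refine Fin.cases ?_ (fun j => ?_) i hi
      · simpa using huv.ne'
      · simpa using hgu j
    · rintro ⟨i, hi⟩
      exact hgv i hi
  let par : Fin (m + 2) → Fin (m + 2) :=
    Fin.cons 0 (Fin.cons 0 fun i => if H.Adj u (g i) then 0 else 1)
  have hadj : ∀ x, x ≠ 0 → H.Adj (f x) (f (par x)) := by
    intro x
    refine Fin.cases (fun h => absurd rfl h) (fun y => ?_) x
    intro _
    refine Fin.cases ?_ (fun i => ?_) y
    · simpa [f, par] using huv.symm
    · by_cases h : H.Adj u (g i)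
      · simpa [f, par, h] using h.symm
      · have h2 := (hgadj i).resolve_left h
        have hp : par (Fin.succ (Fin.succ i)) = Fin.succ 0 := by
          have h1 : (Fin.succ 0 : Fin (m + 2)) = 1 := rfl
          rw [h1]
          simp [par, h]
        rw [hp]
        simp only [f, Fin.cons_succ, Fin.cons_zero]
        exact h2.symm
  refine ⟨parGraph par, parGraph_mem hn par 0 1 (by simp) rfl rfl ?_, ⟨⟨⟨f, ?_⟩, hfinj⟩⟩⟩
  · intro x
    refine Fin.cases (fun h => absurd rfl h) (fun y => ?_) x
    intro _
    refine Fin.cases (Or.inl rfl) (fun i => ?_) y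
    by_cases h : H.Adj u (g i)
    · exact Or.inl (by simp [par, h])
    · refine Or.inr ⟨by simp [par, h], ?_⟩
      intro h2
      have : (1 : Fin (m + 2)) = Fin.succ 0 := rfl
      rw [this, Fin.succ_inj] at h2
      exact absurd h2 (Fin.succ_ne_zero i)
  · intro x y hxy
    have hxy' : x ≠ y ∧ (y = par x ∨ x = par y) := hxy
    have hclaim : ∀ x y, x ≠ y → y = par x → H.Adj (f x) (f y) := by
      intro x y hne hy
      subst hy
      refine hadj x ?_
      rintro rfl
      exact hne rfl
    rcases hxy'.2 with h | h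
    · exact hclaim x y hxy'.1 h
    · exact (hclaim y x hxy'.1.symm h).symm

end construction

end Pool.Agent.W5h7.DStar
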