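import Mathlib
import Pool.Agent.W5h7.DStarBasic

/-!
# Good colourings: blow-ups of Paley graphs

Helper file for `MP_f88521_co`.
-/

namespace Pool.Agent.W5h7.DStar

open SimpleGraph Finset

/-- The vertices joined to both `a` and `b` in the colour different from that of `a b`. -/
def opp {N : ℕ} (B : Fin N → Fin N → Bool) (a b : Fin N) : Finset (Fin N) :=
  univ.filter fun d => B a d ≠ B a b ∧ B b d ≠ B a b

/-- `K_N` has a colouring in which every edge has at least `c` common neighbours in the other
colour. -/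
def Good (N c : ℕ) : Prop :=
  ∃ B : Fin N → Fin N → Bool, (∀ a b, B a b = B b a) ∧ (∀ a, B a a = false) ∧
    ∀ a b, c ≤ (opp B a b).card

/-- Blow-up of a good colouring. -/
theorem Good.blowup {m c N w : ℕ} (h : Good m c) (hm : 0 < m) (hN : m * w ≤ N) :
    Good N (c * w) := by
  classical
  obtain ⟨B, hs, hd, hB⟩ := h
  let f : Fin N → Fin m := fun x => ⟨x.1 % m, Nat.mod_lt _ hm⟩
  refine ⟨fun x y => B (f x) (f y), fun x y => hs _ _, fun x => hd _, fun x y => ?_⟩
  have hfib : ∀ d : Fin m, w ≤ (univ.filter fun z : Fin N => f z = d).card := by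
    intro d
    have hlt : ∀ j : Fin w, d.1 + m * j.1 < N := by
      intro j
      have h1 : m * (j.1 + 1) ≤ m * w := Nat.mul_le_mul_left _ j.2
      have h2 := d.2
      rw [Nat.mul_add, Nat.mul_one] at h1
      omega
    let g : Fin w → Fin N := fun j => ⟨d.1 + m * j.1, hlt j⟩
    have hg : Function.Injective g := by
      intro i j hij
      have h1 : d.1 + m * i.1 = d.1 + m * j.1 := congrArg Fin.val hij
      have h2 : m * i.1 = m * j.1 := by omega
      exact Fin.ext (Nat.eq_of_mul_eq_mul_left hm h2)
    have h3 : (univ.image g) ⊆ univ.filter fun z : Fin N => f z = d := by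
      intro z hz
      simp only [mem_image, mem_univ, true_and] at hz
      obtain ⟨j, rfl⟩ := hz
      simp only [mem_filter, mem_univ, true_and, f, g]
      apply Fin.ext
      simp [Nat.mod_eq_of_lt d.2]
    have h4 := card_le_card h3
    rw [card_image_of_injective _ hg] at h4
    simpa using h4
  have heq : opp (fun x y => B (f x) (f y)) x y =
      (opp B (f x) (f y)).biUnion fun d => univ.filter fun z : Fin N => f z = d := by
    ext z
    simp [opp]
  rw [heq, card_biUnion]
  · calc c * w ≤ (opp B (f x) (f y)).card * w := Nat.mul_le_mul_right _ (hB _ _)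
      _ = ∑ _d ∈ opp B (f x) (f y), w := by simp
      _ ≤ _ := sum_le_sum fun d _ => hfib d
  · intro d _ e _ hde
    change Disjoint _ _
    rw [Finset.disjoint_left]
    intro z hz hz2
    simp only [mem_filter, mem_univ, true_and] at hz hz2
    exact hde (hz.symm.trans hz2)

/-- Colouring from the rows of an adjacency matrix written in binary. -/
def ofRows (m : ℕ) (L : List ℕ) (a b : Fin m) : Bool := (L.getD a.1 0).testBit b.1

theorem good5 : Good 5 1 :=
  ⟨ofRows 5 [18, 5, 10, 20, 9], by decide +kernel, by decide +kernel, by decide +kernel⟩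

theorem good9 : Good 9 2 :=
  ⟨ofRows 9 [78, 149, 291, 113, 170, 284, 393, 338, 228],
    by decide +kernel, by decide +kernel, by decide +kernel⟩

theorem good13 : Good 13 3 :=
  ⟨ofRows 13 [5658, 3125, 6250, 4309, 427, 854, 1708, 3416, 6832, 5473, 2755, 5510, 2829],
    by decide +kernel, by decide +kernel, by decide +kernel⟩

theorem good17 : Good 17 4 :=
  ⟨ofRows 17 [107286, 83501, 35931, 71862, 12653, 25306, 50612, 101224, 71377, 11683, 23366,
    46732, 93464, 55857, 111714, 92357, 53643],
    by decide +kernel, by decide +kernel, by decide +kernel⟩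

theorem good22 : Good 22 5 :=
  ⟨ofRows 22 [3750060, 3338584, 3499665, 3820835, 3448390, 2939273, 2733842, 2353701, 2577514,
    3026132, 609116, 169657, 338291, 676551, 304558, 1657074, 1217989, 1387402, 1725236,
    1353321, 1015839, 1023],
    by decide +kernel, by decide +kernel, by decide +kernel⟩

theorem good29 : Good 29 7 :=
  ⟨ofRows 29 [332473074, 128075237, 256150474, 512300948, 487730985, 438591059, 340311207,
    143751503, 287503006, 38135101, 76270202, 152540404, 305080808, 73290705, 146581410,
    293162820, 49454729, 98909458, 197818916, 395637832, 254404753, 508809506, 480748101,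
    424625291, 312379671, 87888431, 175776862, 351553724, 166236537],
    by decide +kernel, by decide +kernel, by decide +kernel⟩

/-- The edge colouring given by a symmetric Boolean function. -/
def bcol {N : ℕ} (B : Fin N → Fin N → Bool) (hs : ∀ a b, B a b = B b a) :
    Sym2 (Fin N) → Fin 2 :=
  Sym2.lift ⟨fun u v => if B u v then 1 else 0, fun u v => by simp only [hs u v]⟩

/-- A good colouring avoids all trees of diameter at most three on `n` vertices. -/
theorem Good.not_arrows {N c n : ℕ} (h : Good N c) (hn : 2 ≤ n) (hN : N < c + n) :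
    ¬ Arrows N (tau n 3) := by
  classical
  obtain ⟨B, hs, hd, hB⟩ := h
  intro hA
  obtain ⟨i, T, hT, hTH⟩ := hA (bcol B hs)
  obtain ⟨u, v, huv, hc⟩ := edge_of_contained hn hT hTH
  have hinj : ∀ x y : Bool, (if x then (1 : Fin 2) else 0) = (if y then 1 else 0) → x = y := by
    decide
  have hsub : opp B u v ⊆ co (colourClass (bcol B hs) i) u v := by
    intro w hw
    simp only [opp, mem_filter, mem_univ, true_and] at hw
    have huv' : (if B u v then (1 : Fin 2) else 0) = i := huv.2
    simp only [co, mem_filter, mem_univ, true_and]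
    constructor
    · intro hcon
      have h1 : (if B u w then (1 : Fin 2) else 0) = i := hcon.2
      exact hw.1 (hinj _ _ (h1.trans huv'.symm))
    · intro hcon
      have h1 : (if B v w then (1 : Fin 2) else 0) = i := hcon.2
      exact hw.2 (hinj _ _ (h1.trans huv'.symm))
  have h1 := card_le_card hsub
  have h2 := hB u v
  omega

/-- The arrow relation is monotone in the number of vertices. -/
theorem Arrows.mono {n N M : ℕ} {F : Set (SimpleGraph (Fin n))} (h : Arrows N F) (hNM : N ≤ M) :
    Arrows M F := by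
  intro c
  obtain ⟨i, T, hT, ⟨f⟩⟩ := h fun e => c (e.map (Fin.castLE hNM))
  refine ⟨i, T, hT, ⟨⟨⟨fun x => Fin.castLE hNM (f x), ?_⟩, ?_⟩⟩⟩
  · intro x y hxy
    have h1 := f.toHom.map_adj hxy
    have h2 : f x ≠ f y ∧ c (Sym2.map (Fin.castLE hNM) s(f x, f y)) = i := h1
    refine ⟨fun h => h2.1 (Fin.castLE_injective hNM h), ?_⟩
    simpa using h2.2
  · intro x y hxy
    exact f.injective (Fin.castLE_injective hNM hxy)

/-- A colouring without the trees has many common neighbours in the opposite colour. -/
theorem exists_colouring {N n : ℕ} (hn : 2 ≤ n) (h : ¬ Arrows N (tau n 3)) :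
    ∃ c : Sym2 (Fin N) → Fin 2, ∀ u v, u ≠ v →
      N < (univ.filter fun w => w ≠ u ∧ w ≠ v ∧ c s(u, w) ≠ c s(u, v) ∧
        c s(v, w) ≠ c s(u, v)).card + n := by
  classical
  unfold Arrows at h
  push Not at h
  obtain ⟨c, hc⟩ := h
  refine ⟨c, fun u v huv => ?_⟩
  by_contra hcon
  push Not at hcon
  have hadj : (colourClass c (c s(u, v))).Adj u v := ⟨huv, rfl⟩
  have hle : (co (colourClass c (c s(u, v))) u v).card + n ≤ N := by
    refine le_trans (Nat.add_le_add_right (card_le_card ?_) n) hcon
    intro w hw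
    simp only [co, mem_filter, mem_univ, true_and] at hw ⊢
    have hwu : w ≠ u := by
      rintro rfl
      exact hw.2 hadj.symm
    have hwv : w ≠ v := by
      rintro rfl
      exact hw.1 hadj
    exact ⟨hwu, hwv, fun h => hw.1 ⟨hwu.symm, h⟩, fun h => hw.2 ⟨hwv.symm, h⟩⟩
  obtain ⟨T, hT, hTH⟩ := contained_of_edge hn _ hadj hle
  exact (hc _ T hT).false hTH.some

/-- Local counting at a vertex (Goodman). -/
theorem local_count {N : ℕ} (c : Sym2 (Fin N) → Fin 2) (u : Fin N) :
    ∑ v ∈ univ.erase u, (univ.filter fun w => w ≠ u ∧ w ≠ v ∧ c s(u, w) ≠ c s(u, v) ∧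
        c s(v, w) ≠ c s(u, v)).card =
      ((univ.erase u).filter fun v => c s(u, v) = 0).card *
      ((univ.erase u).filter fun v => c s(u, v) ≠ 0).card := by
  classical
  set R := (univ.erase u).filter fun v => c s(u, v) = 0 with hR
  set S := (univ.erase u).filter fun v => c s(u, v) ≠ 0 with hS
  have h01 : ∀ x : Fin 2, x ≠ 0 ↔ x = 1 := by decide
  rw [← sum_filter_add_sum_filter_not (univ.erase u) (fun v => c s(u, v) = 0)]
  have h1 : ∀ v ∈ R, (univ.filter fun w => w ≠ u ∧ w ≠ v ∧ c s(u, w) ≠ c s(u, v) ∧
        c s(v, w) ≠ c s(u, v)).card = ∑ w ∈ S, if c s(v, w) = 0 then 0 else 1 := by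
    intro v hv
    simp only [hR, mem_filter, mem_erase, mem_univ, and_true] at hv
    rw [card_eq_sum_ones, sum_filter, hS, sum_filter, ← sum_subset (subset_univ (univ.erase u))]
    · apply sum_congr rfl
      intro w hw
      simp only [mem_erase, mem_univ, and_true] at hw
      by_cases h1 : c s(u, w) = 0
      · simp [h1, hv.2]
      · have hwv : w ≠ v := by rintro rfl; exact h1 hv.2
        by_cases h2 : c s(v, w) = 0
        · simp [h1, h2, hv.2]
        · simp [h1, h2, hv.2, hw, hwv]
    · intro w _ hw
      have : w = u := by simpa using hw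
      simp [this]
  have h2 : ∀ v ∈ S, (univ.filter fun w => w ≠ u ∧ w ≠ v ∧ c s(u, w) ≠ c s(u, v) ∧
        c s(v, w) ≠ c s(u, v)).card = ∑ w ∈ R, if c s(v, w) = 0 then 1 else 0 := by
    intro v hv
    simp only [hS, mem_filter, mem_erase, mem_univ, and_true] at hv
    rw [card_eq_sum_ones, sum_filter, hR, sum_filter, ← sum_subset (subset_univ (univ.erase u))]
    · apply sum_congr rfl
      intro w hw
      simp only [mem_erase, mem_univ, and_true] at hw
      have hv1 : c s(u, v) = 1 := (h01 _).mp hv.2
      by_cases h1 : c s(u, w) = 0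
      · have hwv : w ≠ v := by rintro rfl; exact hv.2 h1
        by_cases h2 : c s(v, w) = 0
        · simp [h1, h2, hv1, hw, hwv]
        · have := (h01 _).mp h2
          simp [h1, this, hv1]
      · have := (h01 _).mp h1
        simp [this, hv1]
    · intro w _ hw
      have : w = u := by simpa using hw
      simp [this]
  have hSeq : (univ.erase u).filter (fun v => ¬ c s(u, v) = 0) = S := rfl
  rw [sum_congr rfl h1, hSeq, sum_congr rfl h2]
  rw [sum_comm (s := S) (t := R)]
  rw [← sum_add_distrib]
  have h3 : ∀ v ∈ R, ((∑ w ∈ S, if c s(v, w) = 0 then 0 else 1) +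
      ∑ w ∈ S, if c s(w, v) = 0 then 1 else 0) = S.card := by
    intro v _
    rw [← sum_add_distrib, card_eq_sum_ones]
    apply sum_congr rfl
    intro w _
    rw [Sym2.eq_swap (a := w) (b := v)]
    by_cases h : c s(v, w) = 0 <;> simp [h]
  rw [sum_congr rfl h3]
  simp

theorem goodman {N K : ℕ} (hN : 2 ≤ N) (c : Sym2 (Fin N) → Fin 2)
    (h : ∀ u v, u ≠ v → K ≤ (univ.filter fun w => w ≠ u ∧ w ≠ v ∧ c s(u, w) ≠ c s(u, v) ∧
        c s(v, w) ≠ c s(u, v)).card) : 4 * K + 1 ≤ N := by
  classical
  let u : Fin N := ⟨0, by omega⟩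
  have h1 := local_count c u
  have h2 : ∑ _v ∈ univ.erase u, K ≤ ∑ v ∈ univ.erase u, (univ.filter fun w => w ≠ u ∧ w ≠ v ∧
      c s(u, w) ≠ c s(u, v) ∧ c s(v, w) ≠ c s(u, v)).card :=
    sum_le_sum fun v hv => h u v (ne_of_mem_erase hv).symm
  have h3 : ((univ.erase u).filter fun v => c s(u, v) = 0).card +
      ((univ.erase u).filter fun v => ¬ c s(u, v) = 0).card = (univ.erase u).card :=
    card_filter_add_card_filter_not _
  have h4 : (univ.erase u : Finset (Fin N)).card = N - 1 := by
    rw [card_erase_of_mem (mem_univ u)]; simp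
  rw [h1] at h2
  simp only [sum_const, smul_eq_mul] at h2
  rw [h4] at h2 h3
  set r := ((univ.erase u).filter fun v => c s(u, v) = 0).card
  set b := ((univ.erase u).filter fun v => ¬ c s(u, v) = 0).card
  obtain ⟨M, rfl⟩ : ∃ M, N = M + 1 := ⟨N - 1, by omega⟩
  simp only [Nat.add_sub_cancel] at h2 h3
  have h5 : 4 * (M * K) ≤ M * M := by
    calc 4 * (M * K) ≤ 4 * (r * b) := by gcongr
      _ ≤ (r + b) * (r + b) := by nlinarith [Nat.le_total r b, sq_nonneg ((r : ℤ) - b)]
      _ = M * M := by rw [h3]
  have hM : 0 < M := by omega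
  have h6 : M * (4 * K) ≤ M * M := by linarith
  have h7 := Nat.le_of_mul_le_mul_left h6 hM
  omega

end Pool.Agent.W5h7.DStar
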