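import Mathlib
import Pool.Agent.W5h7.DStarGood

/-!
# No conference graph on 21 vertices

Helper file for `MP_f88521_co`.
-/

namespace Pool.Agent.W5h7.DStar

open Finset

theorem exists_vec {U : Type} [AddCommGroup U] [Module ℚ U] (m : ℕ) :
    ∀ (W : Type) [AddCommGroup W] [Module ℚ W] [FiniteDimensional ℚ W]
      (ρ : W →ₗ[ℚ] U) (φ ψ : Fin m → (W →ₗ[ℚ] ℚ)), m + 1 ≤ Module.finrank ℚ W →
      (∀ v, (∀ i, ψ i v = 0) → ρ v = 0 → v = 0) →
      ∃ v, (∀ i, φ i v = ψ i v ∨ φ i v = - ψ i v) ∧ ρ v ≠ 0 := by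
  induction m with
  | zero =>
    intro W _ _ _ ρ φ ψ hW hinj
    have hnt : Nontrivial W := Module.finrank_pos_iff (R := ℚ).mp (by omega)
    obtain ⟨v, hv⟩ := exists_ne (0 : W)
    exact ⟨v, fun i => i.elim0, fun h => hv (hinj v (fun i => i.elim0) h)⟩
  | succ m ih =>
    intro W _ _ _ ρ φ ψ hW hinj
    -- choose the sign
    have hsign : ∃ ε : ℚ, (ε = 1 ∨ ε = -1) ∧ ∀ v, (∀ i : Fin m, ψ i.succ v = 0) → ρ v = 0 →
        (φ 0 v = ε * ψ 0 v) → v = 0 := by
      by_cases hL : ∃ v0, (∀ i : Fin m, ψ i.succ v0 = 0) ∧ ρ v0 = 0 ∧ v0 ≠ 0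
      · obtain ⟨v0, h1, h2, h3⟩ := hL
        have h4 : ψ 0 v0 ≠ 0 := by
          intro h
          apply h3
          refine hinj v0 (fun i => ?_) h2
          exact Fin.cases h h1 i
        have hε : ∃ ε : ℚ, (ε = 1 ∨ ε = -1) ∧ φ 0 v0 ≠ ε * ψ 0 v0 := by
          by_cases h : φ 0 v0 = 1 * ψ 0 v0
          · refine ⟨-1, Or.inr rfl, fun h' => h4 ?_⟩
            linarith
          · exact ⟨1, Or.inl rfl, h⟩
        obtain ⟨ε, hε1, hε2⟩ := hε
        refine ⟨ε, hε1, fun v hv1 hv2 hv3 => ?_⟩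
        have hv : v = (ψ 0 v / ψ 0 v0) • v0 := by
          rw [← sub_eq_zero]
          apply hinj
          · intro i
            refine Fin.cases ?_ (fun j => ?_) i
            · simp only [map_sub, map_smul, smul_eq_mul]
              field_simp
              ring
            · simp [hv1 j, h1 j]
          · simp [hv2, h2]
        have h8 : φ 0 v = (ψ 0 v / ψ 0 v0) * φ 0 v0 := by
          have := congrArg (φ 0) hv
          rwa [map_smul, smul_eq_mul] at this
        have h9 : ψ 0 v = (ψ 0 v / ψ 0 v0) * ψ 0 v0 := by field_simp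
        have h5 : (ψ 0 v / ψ 0 v0) * (φ 0 v0 - ε * ψ 0 v0) = 0 := by
          linear_combination hv3 - h8 + ε * h9
        rcases mul_eq_zero.mp h5 with h | h
        · rw [hv, h, zero_smul]
        · exact absurd (sub_eq_zero.mp h) hε2
      · push Not at hL
        exact ⟨1, Or.inl rfl, fun v hv1 hv2 _ => hL v hv1 hv2⟩
    obtain ⟨ε, hε, hkey⟩ := hsign
    let g : W →ₗ[ℚ] ℚ := φ 0 - ε • ψ 0
    let W' := LinearMap.ker g
    have hdim : m + 1 ≤ Module.finrank ℚ W' := by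
      have h1 := LinearMap.finrank_range_add_finrank_ker g
      have h2 : Module.finrank ℚ (LinearMap.range g) ≤ 1 := by
        have := Submodule.finrank_le (LinearMap.range g)
        simpa using this
      change m + 1 ≤ Module.finrank ℚ (LinearMap.ker g)
      omega
    obtain ⟨v, hv1, hv2⟩ := ih W' (ρ ∘ₗ W'.subtype) (fun i => φ i.succ ∘ₗ W'.subtype)
      (fun i => ψ i.succ ∘ₗ W'.subtype) hdim (by
        intro v h1 h2
        have hg : φ 0 v.1 = ε * ψ 0 v.1 := by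
          have : g v.1 = 0 := v.2
          simp only [g, LinearMap.sub_apply, LinearMap.smul_apply, smul_eq_mul] at this
          linarith
        exact Subtype.ext (hkey v.1 (fun i => h1 i) h2 hg))
    refine ⟨v.1, fun i => ?_, hv2⟩
    refine Fin.cases ?_ (fun j => hv1 j) i
    have : g v.1 = 0 := v.2
    simp only [g, LinearMap.sub_apply, LinearMap.smul_apply, smul_eq_mul] at this
    rcases hε with rfl | rfl
    · left; linarith
    · right; linarith

/-- `21` is not a quotient of sums of two squares (integers). -/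
theorem int_descent (a b c d : ℤ) (h : a ^ 2 + b ^ 2 = 21 * (c ^ 2 + d ^ 2)) :
    c = 0 ∧ d = 0 := by
  by_contra hcon
  have hpos : 0 < c ^ 2 + d ^ 2 := by
    rcases not_and_or.mp hcon with hc | hd
    · positivity
    · positivity
  set M : ℕ := c.natAbs ^ 2 + d.natAbs ^ 2 with hM
  have hMpos : 0 < M := by
    have : ((M : ℕ) : ℤ) = c ^ 2 + d ^ 2 := by simp [hM]
    omega
  have hN : a.natAbs ^ 2 + b.natAbs ^ 2 = 21 * M := by
    have : ((a.natAbs ^ 2 + b.natAbs ^ 2 : ℕ) : ℤ) = ((21 * M : ℕ) : ℤ) := by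
      simp [hM]; linarith
    exact_mod_cast this
  have h1 : Even (padicValNat 3 M) := by
    by_cases hm : 3 ∈ M.primeFactors
    · exact (Nat.eq_sq_add_sq_iff.mp ⟨_, _, hM⟩) 3 hm (by norm_num)
    · have : ¬ 3 ∣ M := fun h => hm (Nat.mem_primeFactors.mpr ⟨Nat.prime_three, h, hMpos.ne'⟩)
      rw [padicValNat.eq_zero_of_not_dvd this]; exact Even.zero
  have h2 : Even (padicValNat 3 (21 * M)) := by
    refine (Nat.eq_sq_add_sq_iff.mp ⟨_, _, hN.symm⟩) 3 ?_ (by norm_num)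
    exact Nat.mem_primeFactors.mpr ⟨Nat.prime_three, Dvd.dvd.mul_right (by norm_num) _,
      by positivity⟩
  have : Fact (Nat.Prime 3) := ⟨Nat.prime_three⟩
  rw [padicValNat.mul (by norm_num) hMpos.ne'] at h2
  have h3 : padicValNat 3 21 = 1 := by
    rw [show 21 = 3 * 7 by norm_num, padicValNat.mul (by norm_num) (by norm_num),
      padicValNat.self (by norm_num), padicValNat.eq_zero_of_not_dvd (by norm_num)]
  rw [h3, Nat.even_add] at h2
  exact absurd (h2.mpr h1) (by decide)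

theorem rat_descent (a b c d : ℚ) (h : a ^ 2 + b ^ 2 = 21 * (c ^ 2 + d ^ 2)) :
    c = 0 ∧ d = 0 := by
  have key : ∀ x : ℚ, ∀ D : ℤ, (x.den : ℤ) ∣ D → ∃ X : ℤ, (X : ℚ) = x * D := by
    intro x D ⟨k, hk⟩
    refine ⟨x.num * k, ?_⟩
    rw [hk]
    push_cast
    have : (x.den : ℚ) ≠ 0 := by exact_mod_cast x.den_nz
    calc (x.num : ℚ) * k = (x.num / x.den) * (x.den * k) := by field_simp
      _ = x * (x.den * k) := by rw [Rat.num_div_den]
  set D : ℤ := (a.den : ℤ) * b.den * c.den * d.den with hD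
  have hD0 : (D : ℚ) ≠ 0 := by
    have h1 := a.den_nz
    have h2 := b.den_nz
    have h3 := c.den_nz
    have h4 := d.den_nz
    rw [hD]; push_cast
    positivity
  obtain ⟨A, hA⟩ := key a D ⟨(b.den : ℤ) * c.den * d.den, by rw [hD]; ring⟩
  obtain ⟨B, hB⟩ := key b D ⟨(a.den : ℤ) * c.den * d.den, by rw [hD]; ring⟩
  obtain ⟨C, hC⟩ := key c D ⟨(a.den : ℤ) * b.den * d.den, by rw [hD]; ring⟩
  obtain ⟨E, hE⟩ := key d D ⟨(a.den : ℤ) * b.den * c.den, by rw [hD]; ring⟩
  have h2 : A ^ 2 + B ^ 2 = 21 * (C ^ 2 + E ^ 2) := by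
    have : ((A ^ 2 + B ^ 2 : ℤ) : ℚ) = ((21 * (C ^ 2 + E ^ 2) : ℤ) : ℚ) := by
      push_cast
      rw [hA, hB, hC, hE]
      linear_combination (D : ℚ) ^ 2 * h
    exact_mod_cast this
  obtain ⟨h3, h4⟩ := int_descent A B C E h2
  rw [h3] at hC
  rw [h4] at hE
  constructor
  · have : c * D = 0 := by rw [← hC]; simp
    exact (mul_eq_zero.mp this).resolve_right hD0
  · have : d * D = 0 := by rw [← hE]; simp
    exact (mul_eq_zero.mp this).resolve_right hD0

/-- A general expansion: if the columns of `A` satisfy `∑ᵢ A i j A i k = G j k`. -/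
theorem sum_sq_expand {m n : ℕ} (A : Fin m → Fin n → ℚ) (x : Fin n → ℚ) :
    ∑ i, (∑ j, A i j * x j) ^ 2 = ∑ j, ∑ k, (∑ i, A i j * A i k) * (x j * x k) := by
  have h1 : ∀ i, (∑ j, A i j * x j) ^ 2 = ∑ j, ∑ k, (A i j * A i k) * (x j * x k) := by
    intro i
    rw [sq, sum_mul_sum]
    refine sum_congr rfl fun j _ => sum_congr rfl fun k _ => by ring
  rw [sum_congr rfl fun i _ => h1 i, sum_comm]
  refine sum_congr rfl fun j _ => ?_
  rw [sum_comm]
  refine sum_congr rfl fun k _ => ?_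
  rw [sum_mul]

/-- The block matrix of the quaternion of norm 21. -/
def blk : Fin 4 → Fin 4 → ℤ :=
  ![![4, 2, 1, 0], ![-2, 4, 0, 1], ![-1, 0, 4, -2], ![0, -1, 2, 4]]

def bigM (i j : Fin 20) : ℤ :=
  if i.1 / 4 = j.1 / 4 then blk ⟨i.1 % 4, Nat.mod_lt _ (by norm_num)⟩
    ⟨j.1 % 4, Nat.mod_lt _ (by norm_num)⟩ else 0

theorem bigM_orth : ∀ j k : Fin 20, ∑ i, bigM i j * bigM i k = if j = k then 21 else 0 := by
  decide +kernel

theorem bigM_sq (x : Fin 20 → ℚ) :
    ∑ i, (∑ j, (bigM i j : ℚ) * x j) ^ 2 = 21 * ∑ j, x j ^ 2 := by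
  rw [sum_sq_expand (fun i j => (bigM i j : ℚ)) x]
  have h1 : ∀ j k : Fin 20, ∑ i, (bigM i j : ℚ) * bigM i k = if j = k then 21 else 0 := by
    intro j k
    have := congrArg (fun z : ℤ => (z : ℚ)) (bigM_orth j k)
    push_cast at this
    rw [this]
  simp only [h1, ite_mul, zero_mul, sum_ite_eq, mem_univ, if_true]
  rw [mul_sum]
  exact sum_congr rfl fun j _ => by ring

/-- There is no conference graph on 21 vertices, in matrix form. -/
theorem no_conference (S : Fin 21 → Fin 21 → ℚ) (hrow : ∀ j, ∑ i, S i j = 0)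
    (hdiag : ∀ j, ∑ i, S i j * S i j = 20) (hoff : ∀ j k, j ≠ k → ∑ i, S i j * S i k = -1) :
    False := by
  -- the main identity
  have hid : ∀ (x : Fin 21 → ℚ) (t : ℚ),
      ∑ i, (t + ∑ j, S i j * x j) ^ 2 + (∑ j, x j) ^ 2 = 21 * (t ^ 2 + ∑ j, x j ^ 2) := by
    intro x t
    have h1 : ∑ i, (t + ∑ j, S i j * x j) ^ 2 = 21 * t ^ 2 +
        2 * t * (∑ i, ∑ j, S i j * x j) + ∑ i, (∑ j, S i j * x j) ^ 2 := by
      simp only [add_sq, sum_add_distrib, ← mul_sum]
      simp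
    have h2 : ∑ i, ∑ j, S i j * x j = 0 := by
      rw [sum_comm]
      refine sum_eq_zero fun j _ => ?_
      rw [← sum_mul, hrow, zero_mul]
    have h3 : ∀ j k, ∑ i, S i j * S i k = (if j = k then 21 else 0) - 1 := by
      intro j k
      by_cases h : j = k
      · subst h; rw [hdiag]; norm_num
      · rw [hoff j k h]; simp [h]
    rw [h1, h2, sum_sq_expand]
    simp only [h3, sub_mul, ite_mul, zero_mul, one_mul, sum_sub_distrib, sum_ite_eq, mem_univ,
      if_true]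
    rw [← sum_mul_sum]
    have h4 : ∑ j, 21 * (x j * x j) = 21 * ∑ j, x j ^ 2 := by
      rw [mul_sum]; exact sum_congr rfl fun j _ => by ring
    rw [h4]
    ring
  let pr : Fin 22 → ((Fin 22 → ℚ) →ₗ[ℚ] ℚ) := fun j => LinearMap.proj j
  let φ : Fin 20 → ((Fin 22 → ℚ) →ₗ[ℚ] ℚ) := fun i =>
    pr (Fin.last 21) + ∑ j : Fin 21, S i.castSucc j • pr j.castSucc
  let ψ : Fin 20 → ((Fin 22 → ℚ) →ₗ[ℚ] ℚ) := fun i =>
    ∑ j : Fin 20, (bigM i j : ℚ) • pr j.castSucc.castSucc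
  let ρ : (Fin 22 → ℚ) →ₗ[ℚ] ℚ × ℚ := (pr (Fin.last 20).castSucc).prod (pr (Fin.last 21))
  have hφ : ∀ i v, φ i v = v (Fin.last 21) + ∑ j : Fin 21, S i.castSucc j * v j.castSucc := by
    intro i v; simp [φ, pr]
  have hψ : ∀ i v, ψ i v = ∑ j : Fin 20, (bigM i j : ℚ) * v j.castSucc.castSucc := by
    intro i v; simp [ψ, pr]
  have hρ : ∀ v, ρ v = (v (Fin.last 20).castSucc, v (Fin.last 21)) := fun v => rfl
  obtain ⟨v, hv1, hv2⟩ := exists_vec 20 (Fin 22 → ℚ) ρ φ ψ (by simp) (by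
    intro v h1 h2
    have h3 := bigM_sq fun j => v j.castSucc.castSucc
    have h4 : ∑ i, (∑ j : Fin 20, (bigM i j : ℚ) * v j.castSucc.castSucc) ^ 2 = 0 := by
      refine sum_eq_zero fun i _ => ?_
      rw [← hψ, h1 i]; ring
    rw [h4] at h3
    have h5 : ∑ j : Fin 20, v j.castSucc.castSucc ^ 2 = 0 := by linarith
    rw [sum_eq_zero_iff_of_nonneg (fun j _ => sq_nonneg _)] at h5
    rw [hρ, Prod.mk_eq_zero] at h2
    funext j
    refine Fin.lastCases h2.2 (fun j => ?_) j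
    refine Fin.lastCases h2.1 (fun j => ?_) j
    exact pow_eq_zero_iff (two_ne_zero) |>.mp (h5 j (mem_univ j)))
  have h1 := hid (fun j => v j.castSucc) (v (Fin.last 21))
  have h2 := bigM_sq fun j => v j.castSucc.castSucc
  have h3 : ∑ i : Fin 20, (v (Fin.last 21) + ∑ j : Fin 21, S i.castSucc j * v j.castSucc) ^ 2 =
      ∑ i, (∑ j : Fin 20, (bigM i j : ℚ) * v j.castSucc.castSucc) ^ 2 := by
    refine sum_congr rfl fun i _ => ?_
    rw [← hφ, ← hψ]
    rcases hv1 i with h | h <;> rw [h]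
    ring
  rw [Fin.sum_univ_castSucc (n := 20), h3, h2, Fin.sum_univ_castSucc (n := 20)
    (f := fun j => v j.castSucc ^ 2)] at h1
  obtain ⟨h4, h5⟩ := rat_descent (v (Fin.last 21) + ∑ j : Fin 21, S (Fin.last 20) j * v j.castSucc)
    (∑ j : Fin 21, v j.castSucc) (v (Fin.last 20).castSucc) (v (Fin.last 21)) (by linarith)
  apply hv2
  rw [hρ, h4, h5]
  rfl

end Pool.Agent.W5h7.DStar
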