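import Mathlib
import Pool.Agent.W5h7.DStarConf

/-!
# The case of 21 vertices

Helper file for `MP_f88521_co`.
-/

namespace Pool.Agent.W5h7.DStar

open Finset

/-- The common neighbours of `u`, `v` in the colour different from that of `uv`. -/
def wit {N : ℕ} (c : Sym2 (Fin N) → Fin 2) (u v : Fin N) : Finset (Fin N) :=
  univ.filter fun w => w ≠ u ∧ w ≠ v ∧ c s(u, w) ≠ c s(u, v) ∧ c s(v, w) ≠ c s(u, v)

theorem no_good_twentyOne (c : Sym2 (Fin 21) → Fin 2)
    (h : ∀ u v, u ≠ v → 5 ≤ (wit c u v).card) : False := by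
  classical
  have hcount : ∀ u, ((univ.erase u).filter fun v => c s(u, v) = 0).card = 10 ∧
      ((univ.erase u).filter fun v => c s(u, v) ≠ 0).card = 10 ∧
      ∀ v, u ≠ v → (wit c u v).card = 5 := by
    intro u
    have h1 := local_count c u
    have h3 : ((univ.erase u).filter fun v => c s(u, v) = 0).card +
        ((univ.erase u).filter fun v => ¬ c s(u, v) = 0).card = (univ.erase u).card :=
      card_filter_add_card_filter_not _
    have h4 : (univ.erase u : Finset (Fin 21)).card = 20 := by
      rw [card_erase_of_mem (mem_univ u)]; simp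
    have h2 : ∑ _v ∈ univ.erase u, 5 ≤ ∑ v ∈ univ.erase u, (wit c u v).card :=
      sum_le_sum fun v hv => h u v (ne_of_mem_erase hv).symm
    have h5 : ∑ v ∈ univ.erase u, (wit c u v).card =
      ((univ.erase u).filter fun v => c s(u, v) = 0).card *
      ((univ.erase u).filter fun v => c s(u, v) ≠ 0).card := h1
    rw [h4] at h3
    simp only [sum_const, smul_eq_mul, h4] at h2
    set r := ((univ.erase u).filter fun v => c s(u, v) = 0).card with hr
    set b := ((univ.erase u).filter fun v => c s(u, v) ≠ 0).card with hb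
    have hr' : r + b = 20 := h3
    have hrb : 100 ≤ r * b := by rw [← h5]; exact h2
    have hr10 : r = 10 := by
      have : r ≤ 20 := by omega
      obtain ⟨b', hb'⟩ : ∃ b', b' = 20 - r := ⟨_, rfl⟩
      have hbb : b = 20 - r := by omega
      rw [hbb] at hrb
      interval_cases r <;> omega
    have hb10 : b = 10 := by omega
    refine ⟨hr10, hb10, fun v huv => ?_⟩
    have h6 : ∑ v ∈ univ.erase u, (wit c u v).card = ∑ _v ∈ univ.erase u, 5 := by
      rw [h5, hr10, hb10]; simp [h4]
    have h7 := (sum_eq_sum_iff_of_le (f := fun _ => 5) (g := fun v => (wit c u v).card)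
      (s := univ.erase u) fun v hv => h u v (ne_of_mem_erase hv).symm).mp h6.symm
    exact (h7 v (mem_erase.mpr ⟨huv.symm, mem_univ _⟩)).symm
  let σ : Fin 2 → ℚ := fun x => if x = 0 then 1 else -1
  have hσ : ∀ x, σ x * σ x = 1 := by
    intro x; by_cases hx : x = 0 <;> simp [σ, hx]
  have hσ2 : ∀ x y, x ≠ y → σ x * σ y = -1 := by
    intro x y hxy
    fin_cases x <;> fin_cases y <;> simp_all [σ]
  let S : Fin 21 → Fin 21 → ℚ := fun u v => if u = v then 0 else σ (c s(u, v))
  have hsymm : ∀ u v, S u v = S v u := by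
    intro u v
    simp only [S]
    by_cases huv : u = v
    · simp [huv]
    · rw [if_neg huv, if_neg (Ne.symm huv), Sym2.eq_swap]
  have hrow : ∀ j, ∑ i, S i j = 0 := by
    intro j
    have h1 : ∑ i, S i j = ∑ i ∈ univ.erase j, σ (c s(j, i)) := by
      rw [← sum_subset (subset_univ (univ.erase j))]
      · refine sum_congr rfl fun i hi => ?_
        rw [hsymm]
        simp only [S]
        rw [if_neg (ne_of_mem_erase hi).symm]
      · intro x _ hx
        have : x = j := by simpa using hx
        simp [S, this]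
    rw [h1, ← sum_filter_add_sum_filter_not (univ.erase j) (fun i => c s(j, i) = 0)]
    have h2 : ∑ i ∈ (univ.erase j).filter (fun i => c s(j, i) = 0), σ (c s(j, i)) =
        ∑ i ∈ (univ.erase j).filter (fun i => c s(j, i) = 0), (1 : ℚ) :=
      sum_congr rfl fun i hi => by simp [σ, (mem_filter.mp hi).2]
    have h3 : ∑ i ∈ (univ.erase j).filter (fun i => ¬ c s(j, i) = 0), σ (c s(j, i)) =
        ∑ i ∈ (univ.erase j).filter (fun i => ¬ c s(j, i) = 0), (-1 : ℚ) :=
      sum_congr rfl fun i hi => by simp [σ, (mem_filter.mp hi).2]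
    rw [h2, h3]
    have h4 := (hcount j).1
    have h5 := (hcount j).2.1
    simp only [sum_const, h4, h5, nsmul_eq_mul]
    norm_num
  have hdiag : ∀ j, ∑ i, S i j * S i j = 20 := by
    intro j
    rw [← add_sum_erase univ _ (mem_univ j)]
    have h1 : ∑ i ∈ univ.erase j, S i j * S i j = ∑ i ∈ univ.erase j, (1 : ℚ) := by
      refine sum_congr rfl fun i hi => ?_
      simp only [S]
      rw [if_neg (ne_of_mem_erase hi), hσ]
    rw [h1]
    simp [S]
  refine no_conference S hrow hdiag fun j k hjk => ?_
  set ε := σ (c s(j, k)) with hε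
  have hSjk : S j k = ε := by simp only [S]; rw [if_neg hjk]
  have hSkj : S k j = ε := by rw [hsymm, hSjk]
  have hεε : ε * ε = 1 := hσ _
  have h1 : ∑ w, (1 - ε * S w j) * (1 - ε * S w k) = 4 * (wit c j k).card := by
    have h2 : ∀ w, (1 - ε * S w j) * (1 - ε * S w k) = if w ∈ wit c j k then 4 else 0 := by
      intro w
      by_cases hwj : w = j
      · subst hwj
        have : w ∉ wit c w k := by simp [wit]
        rw [if_neg this, hSjk, hεε]; ring
      by_cases hwk : w = k
      · subst hwk
        have : w ∉ wit c j w := by simp [wit]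
        rw [if_neg this, hSkj, hεε]; ring
      have e1 : S w j = σ (c s(j, w)) := by
        rw [hsymm]; simp only [S]; rw [if_neg (Ne.symm hwj)]
      have e2 : S w k = σ (c s(k, w)) := by
        rw [hsymm]; simp only [S]; rw [if_neg (Ne.symm hwk)]
      rw [e1, e2]
      by_cases h3 : c s(j, w) = c s(j, k)
      · have : w ∉ wit c j k := by simp [wit, h3]
        rw [if_neg this, h3, ← hε, hεε]; ring
      by_cases h4 : c s(k, w) = c s(j, k)
      · have : w ∉ wit c j k := by simp [wit, h4]
        rw [if_neg this, h4, ← hε, hεε]; ring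
      have : w ∈ wit c j k := by simp [wit, h3, h4, hwj, hwk]
      rw [if_pos this, hε, hσ2 _ _ (Ne.symm h3), hσ2 _ _ (Ne.symm h4)]; norm_num
    rw [sum_congr rfl fun w _ => h2 w, sum_ite_mem, univ_inter, sum_const, nsmul_eq_mul]
    ring
  have h2 : ∑ w, (1 - ε * S w j) * (1 - ε * S w k) =
      21 - ε * (∑ w, S w j) - ε * (∑ w, S w k) + ε * ε * ∑ w, S w j * S w k := by
    simp only [mul_sum]
    rw [← sub_eq_zero]
    have : (21 : ℚ) = ∑ _w : Fin 21, (1 : ℚ) := by simp
    rw [this, ← sum_sub_distrib, ← sum_sub_distrib, ← sum_add_distrib, ← sum_sub_distrib]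
    refine sum_eq_zero fun w _ => by ring
  rw [h1, hrow, hrow, hεε, (hcount j).2.2 k hjk] at h2
  push_cast at h2
  linarith

end Pool.Agent.W5h7.DStar
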